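import Pool.Agent.X246.ACR.Fin

set_option autoImplicit false

/-!
# De Morgan formulas with at most `4 N ^ 2` literals for parity
-/

namespace Pool.Agent.X245.PFM

open Finset Pool.Agent.X246.ACR

/-- Formulas for the parity of the bits at the places of a list with at most `2 ^ m` entries
(`c = true`) and for its negation (`c = false`). -/
theorem parity_list {I : Type} (m : ℕ) : ∀ (l : List I), l.length ≤ 2 ^ m → ∀ c : Bool,
    ∃ F : DeMorgan I, F.size ≤ 4 ^ m ∧
      ∀ x : I → Bool, F.eval x = true ↔ (Odd (l.countP fun i => x i) ↔ c = true) := by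
  induction m with
  | zero =>
    intro l hl c
    rw [pow_zero] at hl
    rcases l with _ | ⟨i, l⟩
    · refine ⟨.const (!c), by simp [DeMorgan.size], fun x => ?_⟩
      cases c <;> simp [DeMorgan.eval]
    · have h0 : l = [] := by
        rw [List.length_cons] at hl
        exact List.length_eq_zero_iff.1 (by omega)
      subst h0
      refine ⟨.lit i c, by simp [DeMorgan.size], fun x => ?_⟩
      cases c <;> cases hx : x i <;> simp [DeMorgan.eval, hx]
  | succ m ih =>
    intro l hl c
    have h2 : (l.take (2 ^ m)).length ≤ 2 ^ m := by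
      rw [List.length_take]
      exact min_le_left _ _
    have h3 : (l.drop (2 ^ m)).length ≤ 2 ^ m := by
      rw [List.length_drop]
      rw [pow_succ] at hl
      omega
    obtain ⟨A, hA, hA'⟩ := ih _ h2 true
    obtain ⟨B, hB, hB'⟩ := ih _ h2 false
    obtain ⟨C, hC, hC'⟩ := ih _ h3 (!c)
    obtain ⟨D, hD, hD'⟩ := ih _ h3 c
    refine ⟨.or (.and A C) (.and B D), ?_, fun x => ?_⟩
    · simp only [DeMorgan.size]
      rw [pow_succ]
      omega
    · have h4 : l.countP (fun i => x i) = (l.take (2 ^ m)).countP (fun i => x i) +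
          (l.drop (2 ^ m)).countP (fun i => x i) := by
        rw [← List.countP_append, List.take_append_drop]
      rw [h4, Nat.odd_add, ← Nat.not_odd_iff_even]
      simp only [DeMorgan.eval, Bool.or_eq_true, Bool.and_eq_true]
      rw [hA', hB', hC', hD']
      obtain ⟨P, hP⟩ : ∃ P : Prop, P = Odd ((l.take (2 ^ m)).countP fun i => x i) := ⟨_, rfl⟩
      obtain ⟨Q, hQ⟩ : ∃ Q : Prop, Q = Odd ((l.drop (2 ^ m)).countP fun i => x i) := ⟨_, rfl⟩
      rw [← hP, ← hQ]
      cases c <;> by_cases h5 : P <;> by_cases h6 : Q <;> simp [h5, h6]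

/-- A De Morgan formula with at most `4 N ^ 2` literals for the parity of `N` bits. -/
theorem parity_formula (N : ℕ) : ∃ F : DeMorgan (Fin N), F.size ≤ 4 * N ^ 2 ∧
    ∀ x, F.eval x = true ↔ Odd (univ.filter fun i => x i = true).card := by
  rcases Nat.eq_zero_or_pos N with h0 | h0
  · subst h0
    refine ⟨.const false, by simp [DeMorgan.size], fun x => ?_⟩
    simp [DeMorgan.eval]
  have h1 : (List.finRange N).length ≤ 2 ^ Nat.clog 2 N := by
    rw [List.length_finRange]
    exact Nat.le_pow_clog (by norm_num) N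
  have h2 : 2 ^ Nat.clog 2 N ≤ 2 * N := by
    rcases Nat.lt_or_ge 1 N with h | h
    · have h3 : 2 ^ (Nat.clog 2 N).pred < N := Nat.pow_pred_clog_lt_self (by norm_num) h
      have h4 : 0 < Nat.clog 2 N := Nat.clog_pos (by norm_num) h
      have h5 : Nat.clog 2 N = (Nat.clog 2 N).pred + 1 := (Nat.succ_pred_eq_of_pos h4).symm
      rw [h5, pow_succ]
      omega
    · have h3 : N = 1 := by omega
      rw [h3]
      simp
  obtain ⟨F, hF, hF'⟩ := parity_list (Nat.clog 2 N) (List.finRange N) h1 true
  refine ⟨F, hF.trans ?_, fun x => ?_⟩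
  · calc 4 ^ Nat.clog 2 N = (2 ^ Nat.clog 2 N) ^ 2 := by
          rw [← pow_mul, mul_comm, pow_mul]
          norm_num
      _ ≤ (2 * N) ^ 2 := Nat.pow_le_pow_left h2 2
      _ = 4 * N ^ 2 := by ring
  · rw [hF']
    have h3 : (List.finRange N).countP (fun i => x i) = (univ.filter fun i => x i = true).card := by
      have h4 := List.toFinset_card_of_nodup
        (List.Nodup.filter (fun i => x i) (List.nodup_finRange N))
      rw [List.countP_eq_length_filter, ← h4]
      congr 1
      ext i
      simp
    rw [h3]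
    simp

end Pool.Agent.X245.PFM
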