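import Pool.Agent.X246.ACR.Ac0
import Pool.Agent.X246.ACR.Ptf

set_option autoImplicit false

/-!
# The average sensitivity of functions computed by circuits of constant depth
-/

namespace Pool.Agent.X245.PFM

open Finset DomAC0 H568R2 Pool.Agent.TH163.AC3 Pool.Agent.Y601 Pool.Agent.X246.ACR

open scoped Classical

variable {N : ℕ}

/-- the number of the sensitive stars -/
theorem shallow_sens (C : Circuit (Fin N)) (v : Fin N ⊕ Fin C.size) (h : ℕ)
    (hv : C.nodeDepth v ≤ h) {s : ℕ} (hs : 1 ≤ s) (ρ : Restr (Fin N)) (hρ : Shallow C s h ρ)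
    (z : Fin N → Bool) :
    (∑ i, if ρ i = none then (if C.nodeVal (SSE.flip i (ov ρ z)) v ≠ C.nodeVal (ov ρ z) v
      then (1 : ℝ) else 0) else 0) ≤ s := by
  obtain ⟨J, hJ⟩ : ∃ J : Finset (Fin N), J = univ.filter fun i => ρ i = none := ⟨_, rfl⟩
  have h1 := SSE.sens_le (node_dt C hs hρ v hv) J z
  have h2 : (∑ i, if ρ i = none then (if C.nodeVal (SSE.flip i (ov ρ z)) v ≠ C.nodeVal (ov ρ z) v
      then (1 : ℝ) else 0) else 0) =
      ((J.filter fun i => rs (fun x => C.nodeVal x v) ρ (SSE.flip i z) ≠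
        rs (fun x => C.nodeVal x v) ρ z).card : ℝ) := by
    rw [card_filter]
    push_cast
    rw [hJ, sum_filter]
    refine sum_congr rfl fun i _ => ?_
    by_cases hi : ρ i = none
    · rw [if_pos hi, if_pos hi]
      have h3 : rs (fun x => C.nodeVal x v) ρ (SSE.flip i z) =
          C.nodeVal (SSE.flip i (ov ρ z)) v := by
        rw [← SSE.ov_flip ρ i hi]
        rfl
      rw [h3]
      rfl
    · rw [if_neg hi, if_neg hi]
  rw [h2]
  exact_mod_cast h1

/-- The total sensitivity of a node of small depth. -/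
theorem ac0_tsens (C : Circuit (Fin N)) (v : Fin N ⊕ Fin C.size) (h : ℕ)
    (hv : C.nodeDepth v ≤ h) {s : ℕ} (hs : 1 ≤ s) (hcond : (h : ℝ) * C.size * N ≤ 2 ^ s) :
    tsens (fun x => C.nodeVal x v) ≤ 2 ^ N * (24 * s) ^ (h + 1) := by
  have hs0 : (1 : ℝ) ≤ s := by exact_mod_cast hs
  obtain ⟨q, hq⟩ : ∃ q : ℝ, q = 1 / (24 * s) := ⟨_, rfl⟩
  have hq0 : 0 < q := by rw [hq]; positivity
  have hq1 : q ≤ 1 / 3 := by
    rw [hq, div_le_div_iff₀ (by positivity) (by norm_num)]
    linarith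
  have hbad := collapse' C hq0.le hq1 hs h
  have h1 : (12 * s * q : ℝ) = 1 / 2 := by rw [hq]; field_simp; norm_num
  rw [h1] at hbad
  have hqh : 0 < q ^ h := by positivity
  have hqs : q ^ h * (24 * s) ^ h = 1 := by
    rw [← mul_pow, hq]
    have : (1 : ℝ) / (24 * s) * (24 * s) = 1 := by field_simp
    rw [this, one_pow]
  obtain ⟨F, hF⟩ : ∃ F : Fin N → (Fin N → Bool) → ℝ, F = fun i x =>
      if C.nodeVal (SSE.flip i x) v ≠ C.nodeVal x v then (1 : ℝ) else 0 := ⟨_, rfl⟩
  obtain ⟨g, hg⟩ : ∃ g : Restr (Fin N) → ℝ, g = fun ρ => Ex un (fun z => ∑ i, if ρ i = none then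
      F i (ov ρ z) else 0) := ⟨_, rfl⟩
  -- the mean value of `g`
  have hmean : 2 ^ N * Ex (wq (q ^ h)) g = q ^ h * tsens (fun x => C.nodeVal x v) := by
    have e1 : g = fun ρ => ∑ i, Ex un (fun z => if ρ i = none then F i (ov ρ z) else 0) := by
      rw [hg]
      funext ρ
      exact Ex_sum univ un fun i z => if ρ i = none then F i (ov ρ z) else 0
    rw [e1, Ex_sum univ (wq (q ^ h)) fun i (ρ : Restr (Fin N)) => Ex un (fun z =>
      if ρ i = none then F i (ov ρ z) else 0)]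
    simp_rw [ex_star_ov]
    rw [tsens_eq, mul_sum, mul_sum]
    refine sum_congr rfl fun i _ => ?_
    have e2 := Ex_un (I := Fin N) (F i)
    rw [Fintype.card_fin] at e2
    rw [mul_left_comm, e2, hF]
  -- the pointwise bounds
  have hw : ∀ a, 0 ≤ wq (q ^ h) a :=
    wq_nonneg hqh.le (pow_le_one₀ hq0.le (by linarith))
  have hpt : ∀ ρ, g ρ ≤ N * (if ¬ Shallow C s h ρ then (1 : ℝ) else 0) + s := by
    intro ρ
    by_cases hS : Shallow C s h ρ
    · rw [if_neg (not_not.2 hS), mul_zero, zero_add, hg]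
      show Ex un _ ≤ _
      refine (Ex_mono un_nonneg (G := fun _ => (s : ℝ)) fun z => ?_).trans
        (le_of_eq (Ex_const un_sum _))
      rw [hF]
      exact shallow_sens C v h hv hs ρ hS z
    · rw [if_pos hS, mul_one, hg]
      show Ex un _ ≤ _
      refine ((Ex_mono un_nonneg (G := fun _ => (N : ℝ)) fun z => ?_).trans
        (le_of_eq (Ex_const un_sum _))).trans (by linarith)
      calc _ ≤ ∑ _i : Fin N, (1 : ℝ) := by
            refine sum_le_sum fun i _ => ?_
            rw [hF]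
            show (if ρ i = none then (if C.nodeVal (SSE.flip i (ov ρ z)) v ≠
              C.nodeVal (ov ρ z) v then (1 : ℝ) else 0) else 0) ≤ 1
            split_ifs <;> norm_num
        _ = N := by rw [sum_const, card_univ, Fintype.card_fin, nsmul_eq_mul, mul_one]
  have h8 := Ex_mono hw hpt
  rw [Ex_add (wq (q ^ h)) (fun ρ : Restr (Fin N) => (N : ℝ) *
      (if ¬ Shallow C s h ρ then (1 : ℝ) else 0)) fun _ => (s : ℝ),
    Ex_smul, Ex_const (wq_sum _)] at h8
  have hN0 : (0 : ℝ) ≤ N := Nat.cast_nonneg _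
  have h9 : (N : ℝ) * Ex (wq (q ^ h)) (fun ρ : Restr (Fin N) =>
      if ¬ Shallow C s h ρ then (1 : ℝ) else 0) ≤ 1 / 2 := by
    refine (mul_le_mul_of_nonneg_left hbad hN0).trans ?_
    have h5 : ((1 : ℝ) / 2) ^ (s + 1) * 2 ^ s = 1 / 2 := by
      rw [pow_succ, mul_right_comm, ← mul_pow]
      norm_num
    calc (N : ℝ) * (h * C.size * (1 / 2) ^ (s + 1)) = (1 / 2) ^ (s + 1) * (h * C.size * N) := by
          ring
      _ ≤ (1 / 2) ^ (s + 1) * 2 ^ s := mul_le_mul_of_nonneg_left hcond (by positivity)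
      _ = 1 / 2 := h5
  have h10 : Ex (wq (q ^ h)) g ≤ 2 * s := by linarith
  have h11 : q ^ h * tsens (fun x => C.nodeVal x v) ≤ 2 ^ N * (2 * s) := by
    rw [← hmean]
    exact mul_le_mul_of_nonneg_left h10 (by positivity)
  have h12 : tsens (fun x => C.nodeVal x v) ≤ 2 ^ N * (2 * s) * (24 * s) ^ h := by
    calc tsens (fun x => C.nodeVal x v) =
          q ^ h * tsens (fun x => C.nodeVal x v) * (24 * s) ^ h := by
          rw [mul_right_comm, hqs, one_mul]
      _ ≤ 2 ^ N * (2 * s) * (24 * s) ^ h := mul_le_mul_of_nonneg_right h11 (by positivity)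
  refine h12.trans ?_
  rw [mul_assoc]
  refine mul_le_mul_of_nonneg_left ?_ (by positivity)
  rw [pow_succ, mul_comm]
  exact mul_le_mul_of_nonneg_left (by linarith) (by positivity)

/-- The bound with an explicit relation between the size and the average sensitivity: if `b` times
the average sensitivity of functions computed by circuits of depth `h` and size `S` is at least
`X`, then the size is exponential. -/
theorem size_bound (N h b S : ℕ) (hb : 1 ≤ b) (X : ℝ) (hX0 : 0 ≤ X)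
    (H : ∀ s : ℕ, 1 ≤ s → (h : ℝ) * S * N ≤ 2 ^ s → X ≤ b * (24 * s) ^ (h + 1)) :
    (2 : ℝ) ^ ((X / b) ^ (1 / (h + 1 : ℝ)) / 24) ≤ 2 * (h * S * N + 1) := by
  obtain ⟨s, hs1, h1, h2⟩ : ∃ s : ℕ, 1 ≤ s ∧ h * S * N ≤ 2 ^ s ∧ 2 ^ s ≤ 2 * (h * S * N + 1) := by
    rcases Nat.eq_zero_or_pos (h * S * N) with h0 | h0
    · exact ⟨1, le_rfl, by omega, by omega⟩
    · refine ⟨Nat.clog 2 (h * S * N + 1), Nat.clog_pos (by norm_num) (by omega), ?_, ?_⟩
      · have := Nat.le_pow_clog (by norm_num : 1 < 2) (h * S * N + 1)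
        omega
      · have h3 : 2 ^ (Nat.clog 2 (h * S * N + 1)).pred < h * S * N + 1 :=
          Nat.pow_pred_clog_lt_self (by norm_num) (by omega)
        have h4 : Nat.clog 2 (h * S * N + 1) = (Nat.clog 2 (h * S * N + 1)).pred + 1 :=
          (Nat.succ_pred_eq_of_pos (Nat.clog_pos (by norm_num) (by omega))).symm
        rw [h4, pow_succ]
        omega
  have hb0 : (0 : ℝ) < b := by exact_mod_cast hb
  have h3 : X ≤ b * (24 * s) ^ (h + 1) := H s hs1 (by exact_mod_cast h1)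
  have h4 : X / b ≤ (24 * s : ℝ) ^ (h + 1) := by
    rw [div_le_iff₀ hb0]
    linarith
  have h5 : (X / b) ^ (1 / (h + 1 : ℝ)) ≤ 24 * s := by
    have h6 : (0 : ℝ) ≤ X / b := by positivity
    have h7 : (0 : ℝ) ≤ 24 * s := by positivity
    calc (X / b) ^ (1 / (h + 1 : ℝ)) ≤ ((24 * s : ℝ) ^ (h + 1)) ^ (1 / (h + 1 : ℝ)) :=
          Real.rpow_le_rpow h6 h4 (by positivity)
      _ = 24 * s := by
          rw [← Real.rpow_natCast, ← Real.rpow_mul h7]
          push_cast
          rw [mul_one_div, div_self (by positivity), Real.rpow_one]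
  have h6 : (X / b) ^ (1 / (h + 1 : ℝ)) / 24 ≤ s := by
    rw [div_le_iff₀ (by norm_num)]
    linarith
  calc (2 : ℝ) ^ ((X / b) ^ (1 / (h + 1 : ℝ)) / 24) ≤ (2 : ℝ) ^ (s : ℝ) :=
        Real.rpow_le_rpow_of_exponent_le (by norm_num) h6
    _ = 2 ^ s := Real.rpow_natCast _ _
    _ ≤ 2 * (h * S * N + 1) := by exact_mod_cast h2

end Pool.Agent.X245.PFM
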